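import Pool.Agent.H84.PrettyA

set_option autoImplicit false

namespace Pool.Agent.Results.MP_31ff53_gt.Counter
open Pool.Agent.H84.Pretty

/-- A Tychonoff space with a cocompact pretty base that is not a k-space: some set `A` meets every
compact `K` in a set closed in `K`, but `A` is not closed. -/
theorem result : ∃ (X : Type) (_ : TopologicalSpace X), T35Space X ∧
    HasCocompactPrettyBase X ∧
    ∃ A : Set X, (∀ K : Set X, IsCompact K → IsClosed ((Subtype.val : K → X) ⁻¹' A)) ∧
      ¬ IsClosed A := by
  obtain ⟨X, t, h1, h2, -, p, -, h4, h5⟩ := exists_space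
  refine ⟨X, t, h1, h2, {p}ᶜ, fun K hK => ?_, h5⟩
  have := (h4 K hK).preimage (continuous_subtype_val : Continuous (Subtype.val : K → X))
  convert this using 1
  ext x
  simp

end Pool.Agent.Results.MP_31ff53_gt.Counter
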